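import Pool.Agent.Q26.MonoF

set_option autoImplicit false

/-!
# Monogenity of the irreducible factors of the Fibonacci polynomials with even index

For even `n ≥ 2` all monic irreducible factors of `F_n` are monogenic if and only if `n` is a power of
two.

Proof. If an odd number `m > 1` divides `n` and `y ^ m = 1`, `y ≠ 1`, then `θ = y - 1/y` is a root of
`F_n`, the algebraic integer `y` lies in `ℚ(θ)` and not in `ℤ[θ]` (this is shown by complex conjugation
modulo two). If `n = 2 ^ k`, then `F_n` is the product of the `L_(2^j)`, `j < k`, which are `x` or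
Eisenstein polynomials at two, and the norm of `L_(2^j)'(θ) = 2^j F_(2^j)(θ)` is up to sign a power of
two because `(θ ^ 2 + 4) F_(2^j)(θ) ^ 2 = -4`.
-/

namespace Pool.Agent.Results.MP_b164a8_nt.EvenFibonacciAnswer

open Polynomial IntermediateField

/-- The Fibonacci polynomials: `F 0 = 0`, `F 1 = 1`, `F (n + 2) = x F (n + 1) + F n`. -/
noncomputable def F : ℕ → ℤ[X]
  | 0 => 0
  | 1 => 1
  | (n + 2) => X * F (n + 1) + F n

/-- `f` (monic and irreducible) is monogenic: for the roots `θ` of `f`, the algebraic integers of the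
field `ℚ(θ)` are exactly the elements of `ℤ[θ]`. -/
def Monogenic (f : ℤ[X]) : Prop :=
  ∀ θ : ℂ, aeval θ f = 0 → ∀ α : ℂ, (α ∈ ℚ⟮θ⟯ ∧ IsIntegral ℤ α) ↔ α ∈ Algebra.adjoin ℤ {θ}

lemma F_eq (n : ℕ) : F n = Pool.Agent.Q26.Mono.fibP n := by
  induction n using Nat.strong_induction_on with
  | _ n ih =>
    match n, ih with
    | 0, _ => unfold F Pool.Agent.Q26.Mono.fibP; rfl
    | 1, _ => unfold F Pool.Agent.Q26.Mono.fibP; rfl
    | (n + 2), ih =>
      unfold F Pool.Agent.Q26.Mono.fibP
      rw [ih (n + 1) (by omega), ih n (by omega)]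

/-- **Answer for even `n ≥ 2`.** All monic irreducible factors of the Fibonacci polynomial `F n` are
monogenic if and only if `n` is a power of two. -/
theorem result (n : ℕ) (hn : Even n) (hn2 : 2 ≤ n) :
    (∀ f : ℤ[X], f.Monic → Irreducible f → f ∣ F n → Monogenic f) ↔ ∃ k : ℕ, n = 2 ^ k := by
  rw [F_eq]
  exact Pool.Agent.Q26.Mono.even_fib_all hn hn2

end Pool.Agent.Results.MP_b164a8_nt.EvenFibonacciAnswer
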